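import Pool.Agent.KS6_40.TI.Main

/-!
# The number of tiles contained in a finite subset of an abelian group
-/

set_option autoImplicit false

namespace Pool.Agent.Results.MP_13da68_co.SmallTripling

open scoped Pointwise

universe u

/-- The finite set `S` tiles the abelian group `G` by translations: for some `T ⊆ G` every `x ∈ G`
can be written in exactly one way as `x = s + t` with `s ∈ S`, `t ∈ T`. -/
def Tiles {G : Type u} [AddCommGroup G] (S : Finset G) : Prop :=
  ∃ T : Set G, ∀ x : G, ∃! p : G × G, p.1 ∈ S ∧ p.2 ∈ T ∧ x = p.1 + p.2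

/-- the number of finite tiles of `G` contained in `M` (used for finite sets `M` only) -/
noncomputable def count {G : Type u} [AddCommGroup G] (M : Set G) : ℕ :=
  {S : Finset G | (S : Set G) ⊆ M ∧ Tiles S}.ncard

/-- the number `3^(1/3)` -/
noncomputable def r : ℝ := (3 : ℝ) ^ ((1 : ℝ) / 3)

/-- the cube `[n]^d` -/
def cube (d n : ℕ) : Set (Fin d → ℤ) := {x | ∀ i, 1 ≤ x i ∧ x i ≤ n}

/-- the integer points `x` with `x / n ∈ Q` -/
def points {d : ℕ} (Q : Set (Fin d → ℝ)) (n : ℕ) : Set (Fin d → ℤ) :=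
  {x | (fun i => (x i : ℝ) / n) ∈ Q}

theorem general (K : ℕ) : ∃ A : ℝ, 0 < A ∧ ∀ (G : Type u) [AddCommGroup G] (M : Set G),
    M.Finite → (M + M - M).ncard ≤ K * M.ncard →
    (count M : ℝ) ≤ A * ((M + M).ncard + 1) ^ (3 * K - 1) * r ^ M.ncard := by
  classical
  obtain ⟨A, hA, h⟩ := Pool.Agent.KS6_40.TI.main.{u} K
  refine ⟨A, hA, fun G _ M hM hK => ?_⟩
  obtain ⟨M, rfl⟩ := hM.exists_finset_coe
  rw [← Finset.coe_add, ← Finset.coe_sub, Set.ncard_coe_finset, Set.ncard_coe_finset] at hK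
  have := h G M hK
  rw [← Finset.coe_add, Set.ncard_coe_finset, Set.ncard_coe_finset]
  have e : count (M : Set G) =
      {S : Finset G | S ⊆ M ∧ ∃ T : Set G, Pool.Agent.KS6_40.TI.Pair S T}.ncard := by
    unfold count Tiles Pool.Agent.KS6_40.TI.Pair
    simp only [Finset.coe_subset]
  rw [e]
  exact this

theorem groups : ∃ A : ℝ, ∀ (G : Type u) [AddCommGroup G] [Finite G],
    (count (Set.univ : Set G) : ℝ) ≤ A * (Nat.card G) ^ 2 * r ^ Nat.card G := by
  obtain ⟨A, hA, h⟩ := general.{u} 1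
  refine ⟨A * 4, fun G _ _ => ?_⟩
  have h1 := h G Set.univ Set.finite_univ (by
    rw [one_mul]
    exact Set.ncard_le_ncard (Set.subset_univ _) Set.finite_univ)
  rw [Set.ncard_univ] at h1
  have h2 : ((Set.univ + Set.univ : Set G).ncard : ℝ) ≤ Nat.card G := by
    rw [← Set.ncard_univ]
    exact_mod_cast Set.ncard_le_ncard (Set.subset_univ _) Set.finite_univ
  have h3 : (1 : ℝ) ≤ Nat.card G := by
    have : 0 < Nat.card G := Nat.card_pos
    exact_mod_cast this
  have hr : 0 < r ^ Nat.card G := by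
    have : 0 < r := by unfold r; positivity
    positivity
  refine h1.trans ?_
  apply mul_le_mul_of_nonneg_right _ hr.le
  rw [mul_assoc]
  apply mul_le_mul_of_nonneg_left _ hA.le
  calc (((Set.univ + Set.univ : Set G).ncard : ℝ) + 1) ^ (3 * 1 - 1)
      ≤ (2 * (Nat.card G : ℝ)) ^ 2 := by
        apply pow_le_pow_left₀ (by positivity)
        linarith
    _ = 4 * (Nat.card G : ℝ) ^ 2 := by ring

/-- sets contained in a box -/
theorem box {d : ℕ} (M : Set (Fin d → ℤ)) (a b : ℤ)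
    (hM : ∀ x ∈ M, ∀ i, a ≤ x i ∧ x i ≤ b) (N : ℕ) (hN : b - a < N) :
    M.Finite ∧ (M + M).ncard ≤ (2 * N) ^ d ∧ (M + M - M).ncard ≤ (3 * N) ^ d := by
  have key : ∀ (P : Set (Fin d → ℤ)) (u v : ℤ) (k : ℕ), (∀ x ∈ P, ∀ i, u ≤ x i ∧ x i ≤ v) →
      v - u < k → P.Finite ∧ P.ncard ≤ k ^ d := by
    intro P u v k hP hk
    have hsub : P ⊆ ((Fintype.piFinset fun _ : Fin d => Finset.Icc u v : Finset (Fin d → ℤ)) :
        Set (Fin d → ℤ)) := by
      intro x hx
      rw [Finset.mem_coe, Fintype.mem_piFinset]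
      intro i
      rw [Finset.mem_Icc]
      exact hP x hx i
    refine ⟨(Finset.finite_toSet _).subset hsub, ?_⟩
    refine (Set.ncard_le_ncard hsub (Finset.finite_toSet _)).trans ?_
    rw [Set.ncard_coe_finset, Fintype.card_piFinset]
    simp only [Int.card_Icc, Finset.prod_const, Finset.card_univ, Fintype.card_fin]
    apply Nat.pow_le_pow_left
    omega
  refine ⟨(key M a b N hM hN).1, (key (M + M) (a + a) (b + b) (2 * N) ?_ ?_).2,
    (key (M + M - M) (a + a - b) (b + b - a) (3 * N) ?_ ?_).2⟩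
  · rintro _ ⟨x, hx, y, hy, rfl⟩ i
    have h1 := hM x hx i
    have h2 := hM y hy i
    show a + a ≤ x i + y i ∧ x i + y i ≤ b + b
    omega
  · push_cast
    omega
  · rintro _ ⟨_, ⟨x, hx, y, hy, rfl⟩, z, hz, rfl⟩ i
    have h1 := hM x hx i
    have h2 := hM y hy i
    have h3 := hM z hz i
    show a + a - b ≤ x i + y i - z i ∧ x i + y i - z i ≤ b + b - a
    omega
  · push_cast
    omega

theorem card_cube (d n : ℕ) : (cube d n).ncard = n ^ d := by
  have : cube d n = ((Fintype.piFinset fun _ : Fin d => Finset.Icc (1 : ℤ) n :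
      Finset (Fin d → ℤ)) : Set (Fin d → ℤ)) := by
    ext x
    rw [Finset.mem_coe, Fintype.mem_piFinset]
    simp only [Finset.mem_Icc]
    rfl
  rw [this, Set.ncard_coe_finset, Fintype.card_piFinset]
  simp

theorem cubes (d : ℕ) : ∃ A : ℝ, ∀ n : ℕ, 1 ≤ n →
    (count (cube d n) : ℝ) ≤ A * (n : ℝ) ^ (d * (3 ^ (d + 1) - 1)) * r ^ (n ^ d) := by
  obtain ⟨A, hA, h⟩ := general.{0} (3 ^ d)
  refine ⟨A * (2 ^ d + 1) ^ (3 ^ (d + 1) - 1), fun n hn => ?_⟩
  obtain ⟨h1, h2, h3⟩ := box (cube d n) 1 n (fun x hx i => hx i) n (by omega)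
  have h4 := h (Fin d → ℤ) (cube d n) h1 (by
    rw [card_cube]
    exact h3.trans (by rw [mul_pow]))
  rw [card_cube] at h4
  have hr : 0 < r ^ (n ^ d) := by
    have : 0 < r := by unfold r; positivity
    positivity
  have hn1 : (1 : ℝ) ≤ n := by exact_mod_cast hn
  refine h4.trans ?_
  apply mul_le_mul_of_nonneg_right _ hr.le
  rw [mul_assoc]
  apply mul_le_mul_of_nonneg_left _ hA.le
  have e : 3 * 3 ^ d - 1 = 3 ^ (d + 1) - 1 := by rw [pow_succ]; omega
  rw [e, pow_mul, ← mul_pow]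
  apply pow_le_pow_left₀ (by positivity)
  have h5 : ((cube d n + cube d n).ncard : ℝ) ≤ (2 * n) ^ d := by exact_mod_cast h2
  have h6 : (1 : ℝ) ≤ (n : ℝ) ^ d := one_le_pow₀ hn1
  rw [mul_pow] at h5
  nlinarith

theorem many {d : ℕ} (Q : Set (Fin d → ℝ)) (c : Fin d → ℝ) (ε : ℝ) (hε : 0 < ε)
    (hQ : ∀ y : Fin d → ℝ, (∀ i, |y i - c i| ≤ ε) → y ∈ Q) (n : ℕ) (hn : 1 ≤ n)
    (hne : 1 ≤ ε * n) (hfin : (points Q n).Finite) :
    (ε * n) ^ d ≤ ((points Q n).ncard : ℝ) := by
  have hn0 : (0 : ℝ) < n := by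
    have : 0 < n := hn
    exact_mod_cast this
  set P : Finset (Fin d → ℤ) := Fintype.piFinset fun i =>
    Finset.Icc ⌈(n : ℝ) * (c i - ε)⌉ ⌊(n : ℝ) * (c i + ε)⌋ with hP
  have hsub : (P : Set (Fin d → ℤ)) ⊆ points Q n := by
    intro x hx
    rw [Finset.mem_coe, hP, Fintype.mem_piFinset] at hx
    apply hQ
    intro i
    have h1 := Finset.mem_Icc.1 (hx i)
    have h2 : (n : ℝ) * (c i - ε) ≤ x i := (Int.le_ceil _).trans (by exact_mod_cast h1.1)
    have h3 : (x i : ℝ) ≤ (n : ℝ) * (c i + ε) := le_trans (by exact_mod_cast h1.2) (Int.floor_le _)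
    rw [abs_le]
    constructor
    · have : c i - ε ≤ (x i : ℝ) / n := by rw [le_div_iff₀ hn0]; linarith
      linarith
    · have : (x i : ℝ) / n ≤ c i + ε := by rw [div_le_iff₀ hn0]; linarith
      linarith
  have h1 : P.card ≤ (points Q n).ncard := by
    rw [← Set.ncard_coe_finset]
    exact Set.ncard_le_ncard hsub hfin
  have h2 : (ε * n) ^ d ≤ (P.card : ℝ) := by
    rw [hP, Fintype.card_piFinset]
    push_cast
    calc (ε * n) ^ d = ∏ _i : Fin d, (ε * n) := by
          rw [Finset.prod_const, Finset.card_univ, Fintype.card_fin]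
      _ ≤ _ := by
        apply Finset.prod_le_prod
        · intro i _; positivity
        · intro i _
          rw [Int.card_Icc]
          have h3 : (⌊(n : ℝ) * (c i + ε)⌋ : ℝ) + 1 - ⌈(n : ℝ) * (c i - ε)⌉ ≤
              (((⌊(n : ℝ) * (c i + ε)⌋ + 1 - ⌈(n : ℝ) * (c i - ε)⌉).toNat : ℕ) : ℝ) := by
            have := Int.self_le_toNat (⌊(n : ℝ) * (c i + ε)⌋ + 1 - ⌈(n : ℝ) * (c i - ε)⌉)
            exact_mod_cast this
          refine le_trans ?_ h3
          have h4 := Int.lt_floor_add_one ((n : ℝ) * (c i + ε))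
          have h5 := Int.ceil_lt_add_one ((n : ℝ) * (c i - ε))
          nlinarith
  exact h2.trans (by exact_mod_cast h1)

theorem regions {d : ℕ} (Q : Set (Fin d → ℝ)) (hb : Bornology.IsBounded Q)
    (hi : (interior Q).Nonempty) : ∃ (A : ℝ) (C : ℕ), ∀ n : ℕ, 1 ≤ n →
      (points Q n).Finite ∧
      (count (points Q n) : ℝ) ≤ A * (n : ℝ) ^ C * r ^ (points Q n).ncard := by
  obtain ⟨c, hc⟩ := hi
  obtain ⟨ε, hε, hball⟩ := Metric.nhds_basis_closedBall.mem_iff.1 (mem_interior_iff_mem_nhds.1 hc)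
  have hQ : ∀ y : Fin d → ℝ, (∀ i, |y i - c i| ≤ ε) → y ∈ Q := by
    intro y hy
    apply hball
    rw [Metric.mem_closedBall, dist_pi_le_iff hε.le]
    intro i
    rw [Real.dist_eq]
    exact hy i
  obtain ⟨R, hR⟩ := hb.subset_closedBall (0 : Fin d → ℝ)
  obtain ⟨B, hB⟩ := exists_nat_ge (max R 1)
  have hB1 : (1 : ℝ) ≤ B := (le_max_right _ _).trans hB
  have hB1' : 1 ≤ B := by exact_mod_cast hB1
  have hBR : R ≤ B := (le_max_left _ _).trans hB
  obtain ⟨K, hK⟩ := exists_nat_ge ((9 * B / ε) ^ d)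
  obtain ⟨A, hA, h⟩ := general.{0} K
  refine ⟨A * ((6 * B) ^ d + 1) ^ (3 * K - 1), d * (3 * K - 1), fun n hn => ?_⟩
  have hn1 : (1 : ℝ) ≤ n := by exact_mod_cast hn
  have hn0 : (0 : ℝ) < n := by linarith
  have hbox : ∀ x ∈ points Q n, ∀ i, -((B * n : ℕ) : ℤ) ≤ x i ∧ x i ≤ ((B * n : ℕ) : ℤ) := by
    intro x hx i
    have h1 := hR hx
    rw [Metric.mem_closedBall, dist_zero_right, pi_norm_le_iff_of_nonneg] at h1
    · have h2 := h1 i
      rw [Real.norm_eq_abs, abs_div, abs_of_pos hn0, div_le_iff₀ hn0] at h2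
      have h3 : |(x i : ℝ)| ≤ B * n := h2.trans (mul_le_mul_of_nonneg_right hBR hn0.le)
      have h4 : |x i| ≤ ((B * n : ℕ) : ℤ) := by
        have : ((|x i| : ℤ) : ℝ) ≤ (((B * n : ℕ) : ℤ) : ℝ) := by
          push_cast
          exact h3
        exact_mod_cast this
      exact abs_le.1 h4
    · have h2 := Metric.mem_closedBall.1 (hR hx)
      exact dist_nonneg.trans h2
  obtain ⟨h1, h2, h3⟩ := box (points Q n) (-((B * n : ℕ) : ℤ)) ((B * n : ℕ) : ℤ) hbox
    (3 * B * n) (by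
      have : 0 < B * n := Nat.mul_pos hB1' hn
      push_cast
      have h5 : (0 : ℤ) < B * n := by exact_mod_cast this
      nlinarith)
  refine ⟨h1, ?_⟩
  have h4 := h (Fin d → ℤ) (points Q n) h1 (by
    rcases (points Q n).eq_empty_or_nonempty with h0 | h0
    · rw [h0]; simp
    · have h5 : 1 ≤ (points Q n).ncard := (Set.ncard_pos h1).2 h0
      have h6 : ((points Q n + points Q n - points Q n).ncard : ℝ) ≤ (9 * B * n) ^ d := by
        have : (3 * (3 * B * n)) ^ d = (9 * B * n) ^ d := by ring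
        rw [this] at h3
        exact_mod_cast h3
      have h7 : (9 * B * n : ℝ) ^ d ≤ K * (points Q n).ncard := by
        have e : (9 * B * n : ℝ) ^ d = (9 * B / ε) ^ d * (ε * n) ^ d := by
          rw [← mul_pow]
          congr 1
          field_simp
        rw [e]
        rcases le_or_gt 1 (ε * n) with h8 | h8
        · exact mul_le_mul hK (many Q c ε hε hQ n hn h8 h1) (by positivity) (by positivity)
        · have h9 : (ε * n) ^ d ≤ 1 := pow_le_one₀ (by positivity) h8.le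
          have h10 : (1 : ℝ) ≤ (points Q n).ncard := by exact_mod_cast h5
          exact mul_le_mul hK (h9.trans h10) (by positivity) (by positivity)
      exact_mod_cast h6.trans h7)
  have hr : 0 < r ^ (points Q n).ncard := by
    have : 0 < r := by unfold r; positivity
    positivity
  refine h4.trans ?_
  apply mul_le_mul_of_nonneg_right _ hr.le
  rw [mul_assoc]
  apply mul_le_mul_of_nonneg_left _ hA.le
  rw [pow_mul, ← mul_pow]
  apply pow_le_pow_left₀ (by positivity)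
  have h5 : ((points Q n + points Q n).ncard : ℝ) ≤ (6 * B * n) ^ d := by
    have : (2 * (3 * B * n)) ^ d = (6 * B * n) ^ d := by ring
    rw [this] at h2
    exact_mod_cast h2
  have h6 : (1 : ℝ) ≤ (n : ℝ) ^ d := one_le_pow₀ hn1
  rw [mul_pow] at h5
  nlinarith

/-- **Theorem.** (i) In every abelian group `G` a finite set `M` with
`|M + M - M| ≤ K |M|` contains at most `A_K (|M + M| + 1)^(3K-1) 3^(|M|/3)` finite sets tiling `G`.
(ii) A finite abelian group of order `v` has at most `A v^2 3^(v/3)` subsets tiling it.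
(iii) `t_{n,d} ≤ A_d n^(d (3^(d+1) - 1)) 3^(n^d/3)`. (iv) The same polynomial correction holds for
the integer points of the dilates `n Q` of any bounded set `Q ⊂ ℝ^d` with nonempty interior. -/
theorem result :
    (∀ K : ℕ, ∃ A : ℝ, 0 < A ∧ ∀ (G : Type u) [AddCommGroup G] (M : Set G), M.Finite →
      (M + M - M).ncard ≤ K * M.ncard →
      (count M : ℝ) ≤ A * ((M + M).ncard + 1) ^ (3 * K - 1) * r ^ M.ncard) ∧
    (∃ A : ℝ, ∀ (G : Type u) [AddCommGroup G] [Finite G],
      (count (Set.univ : Set G) : ℝ) ≤ A * (Nat.card G) ^ 2 * r ^ Nat.card G) ∧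
    (∀ d : ℕ, ∃ A : ℝ, ∀ n : ℕ, 1 ≤ n →
      (count (cube d n) : ℝ) ≤ A * (n : ℝ) ^ (d * (3 ^ (d + 1) - 1)) * r ^ (n ^ d)) ∧
    (∀ (d : ℕ) (Q : Set (Fin d → ℝ)), Bornology.IsBounded Q → (interior Q).Nonempty →
      ∃ (A : ℝ) (C : ℕ), ∀ n : ℕ, 1 ≤ n → (points Q n).Finite ∧
        (count (points Q n) : ℝ) ≤ A * (n : ℝ) ^ C * r ^ (points Q n).ncard) :=
  ⟨general, groups, cubes, fun _ Q hb hi => regions Q hb hi⟩

end Pool.Agent.Results.MP_13da68_co.SmallTripling
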